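import Pool.Agent.Helper38.VF.Goals2

/-!
# Project BT / VTF: ADJ, a closest element
-/

set_option autoImplicit false

namespace Pool.Agent.Helper55.BT

open Pool.Agent.Helper27.VF Pool.Agent.Helper38.VF

universe u

theorem adj (hPth : PthStmt.{u}) (hOra : OraStmt.{u}) (hOrb : OrbStmt.{u}) : AdjStmt.{u} := by
  classical
  intro A W _ _ G G₀ w p hS k hk hne
  obtain ⟨-, hex, -, -⟩ := hOrb A W G G₀ w p hS k hk
  obtain ⟨hmin, huniq⟩ := hOra A W G G₀ w p hS k hk
  have hpth := hPth A W G G₀ w p hS k hk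
  let N : A → Set (Set W × Set W) :=
    fun g => {c | c ∈ SS A G p k ∧ Inn p (1 : A) c.1 ∧ Inn p g c.2}
  have hfin : ∀ g, (N g).Finite := by
    intro g
    refine (hpth w (g • w)).subset ?_
    rintro c ⟨hc, h1, h2⟩
    refine ⟨hc, ?_, ?_⟩
    · intro hw
      have : Inn p (1 : A) c.2 := fact1' hS hc.1 (by rwa [one_smul])
      exact (inn_snd hS hc.1).1 this h1
    · intro hg
      exact (inn_snd hS hc.1).1 h2 (fact1 hS hc.1 hg)
  obtain ⟨x0, hx0⟩ : ∃ x, x ∉ BB A G p k := by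
    by_contra h
    push Not at h
    exact hne ((Subgroup.eq_top_iff' _).2 h)
  have hex2 : ∃ n, ∃ x, x ∉ BB A G p k ∧ (N x).ncard = n := ⟨_, x0, hx0, rfl⟩
  obtain ⟨x, hx, hxn⟩ := Nat.find_spec hex2
  have hxmin : ∀ g, g ∉ BB A G p k → (N x).ncard ≤ (N g).ncard := by
    intro g hg
    rw [hxn]
    exact Nat.find_min' hex2 ⟨g, hg, rfl⟩
  refine ⟨x, hx, fun g hg hgx d hd => ?_⟩
  have hg' : g⁻¹ ∉ BB A G p k := fun h => hg (by simpa using Subgroup.inv_mem _ h)
  have hgx' : g⁻¹ * x ∉ BB A G p k := by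
    intro h
    apply hgx
    have := Subgroup.inv_mem _ h
    rwa [mul_inv_rev, inv_inv] at this
  obtain ⟨d1, hd1, h1⟩ := hex _ hg'
  obtain ⟨d2, hd2, h2⟩ := hex _ hgx'
  have hd12 : d1 = d2 := by
    by_contra hne12
    -- sides
    have a1 : Inn p (g⁻¹ * x) d1.1 := by
      by_contra h
      exact huniq d1 hd1 d2 hd2 hne12 _ ⟨(inn_snd hS hd1.1.1).2 h, h2⟩
    have a2 : Inn p g⁻¹ d2.1 := by
      by_contra h
      exact huniq d1 hd1 d2 hd2 hne12 _ ⟨h1, (inn_snd hS hd2.1.1).2 h⟩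
    have hsub : N g ⊆ N x := by
      rintro c ⟨hc, hc1, hc2⟩
      have hc' : tr g⁻¹ (c.2, c.1) ∈ SS A G p k := SS.tr hS (SS.swap hc) g⁻¹
      have b1 : Inn p (1 : A) (tr g⁻¹ (c.2, c.1)).1 := by
        rw [inn_tr_fst, inv_inv, mul_one]
        exact hc2
      obtain ⟨d'', hd'', hl1, hl2⟩ := hmin _ hc' b1
      have b2 : Inn p g⁻¹ (tr g⁻¹ (c.2, c.1)).2 := by
        rw [inn_tr_snd, inv_inv, mul_inv_cancel]
        exact hc1
      have b3 : Inn p g⁻¹ d''.2 := inn_mono hl2 b2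
      have b4 : d'' = d1 := by
        by_contra h
        exact huniq d'' hd'' d1 hd1 h _ ⟨b3, h1⟩
      have b5 : Inn p (g⁻¹ * x) (tr g⁻¹ (c.2, c.1)).1 := by
        refine inn_mono hl1 ?_
        rw [b4]
        exact a1
      rw [inn_tr_fst, inv_inv, mul_inv_cancel_left] at b5
      exact ⟨hc, hc1, b5⟩
    have hf : tr g d2 ∈ N x := by
      refine ⟨SS.tr hS hd2.1 g, ?_, ?_⟩
      · rw [inn_tr_fst, mul_one]
        exact a2
      · rw [inn_tr_snd]
        exact h2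
    have hf' : tr g d2 ∉ N g := by
      rintro ⟨-, -, h⟩
      rw [inn_tr_snd, inv_mul_cancel] at h
      exact (inn_snd hS hd2.1.1).1 h hd2.2.1
    have hlt : (N g).ncard < (N x).ncard :=
      Set.ncard_lt_ncard ⟨hsub, fun h => hf' (h hf)⟩ (hfin x)
    exact absurd (hxmin g hg) (not_le.2 hlt)
  constructor
  · intro h
    have : d = d2 := by
      by_contra hne'
      exact huniq d hd d2 hd2 hne' _ ⟨h, h2⟩
    rw [this, ← hd12]
    exact h1
  · intro h
    have : d = d1 := by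
      by_contra hne'
      exact huniq d hd d1 hd1 hne' _ ⟨h, h1⟩
    rw [this, hd12]
    exact h2

end Pool.Agent.Helper55.BT
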