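import Pool.Agent.Helper61.BT.Goals

/-!
# Project BT: DXB, derivations which vanish on `B`
-/

set_option autoImplicit false

namespace Pool.Agent.Helper55.BT

open Pool.Agent.Helper27.VF Pool.Agent.Helper61.BT

universe u

/-- The derivation of an equivariant function of the labels. -/
theorem der_of_C {A : Type u} [Group A] {B : Subgroup A} {Λ : Type u} {lam : A → Λ}
    (H3 : ∀ x y : A, {q : A ⧸ B | ∃ g : A, (g : A ⧸ B) = q ∧
      lam (g⁻¹ * x) ≠ lam (g⁻¹ * y)}.Finite)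
    (H4 : ∀ b ∈ B, ∀ g : A, g ∉ B → lam (g⁻¹ * b) = lam g⁻¹)
    {M : Type u} [AddCommGroup M] [DistribMulAction A M] (C : A → M)
    (hC1 : ∀ g g', lam g = lam g' → C g = C g')
    (hC2 : ∀ (b : B) (g : A), C (b * g) = (b : A) • C g)
    (hC3 : C 1 = 0) (x₀ : A) (hx : x₀ ∉ B)
    (hx2 : ∀ g : A, g ∉ B → x₀⁻¹ * g ∉ B → lam (g⁻¹ * x₀) = lam g⁻¹) :
    ∃ δ : A → M, IsDer δ ∧ (∀ b ∈ B, δ b = 0) ∧ δ x₀ = C x₀ - x₀ • C x₀⁻¹ := by
  classical
  let T : A → A → A → M := fun g x y => g • C (g⁻¹ * y) - g • C (g⁻¹ * x)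
  have hE : ∀ (g : A) (b : B) (x : A), (g * b) • C ((g * b)⁻¹ * x) = g • C (g⁻¹ * x) := by
    intro g b x
    have h1 : (g * b)⁻¹ * x = ((b⁻¹ : B) : A) * (g⁻¹ * x) := by
      simp [mul_assoc]
    rw [h1, hC2, mul_smul]
    congr 1
    simp [← mul_smul]
  have hT : ∀ (g g' x y : A), (g : A ⧸ B) = (g' : A ⧸ B) → T g x y = T g' x y := by
    intro g g' x y h
    have h1 : g⁻¹ * g' ∈ B := QuotientGroup.eq.1 h
    have h2 : g' = g * ((⟨g⁻¹ * g', h1⟩ : B) : A) := by simp
    rw [h2]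
    change _ = (g * _) • C ((g * _)⁻¹ * y) - (g * _) • C ((g * _)⁻¹ * x)
    rw [hE, hE]
  have hT0 : ∀ (g x y : A), lam (g⁻¹ * x) = lam (g⁻¹ * y) → T g x y = 0 := by
    intro g x y h
    simp only [T]
    rw [hC1 _ _ h, sub_self]
  have hfin : ∀ x y : A, (Function.support fun q : A ⧸ B => T q.out x y).Finite := by
    intro x y
    refine (H3 x y).subset ?_
    intro q hq
    refine ⟨q.out, QuotientGroup.out_eq' q, ?_⟩
    intro h
    exact hq (hT0 _ _ _ h)
  let φ : A → A → M := fun x y => ∑ᶠ q : A ⧸ B, T q.out x y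
  have hadd : ∀ x y z, φ x y + φ y z = φ x z := by
    intro x y z
    change (∑ᶠ q : A ⧸ B, T q.out x y) + (∑ᶠ q : A ⧸ B, T q.out y z) = ∑ᶠ q : A ⧸ B, T q.out x z
    rw [← finsum_add_distrib (hfin x y) (hfin y z)]
    refine finsum_congr fun q => ?_
    simp only [T]
    abel
  have hsmul : ∀ z x y, φ (z * x) (z * y) = z • φ x y := by
    intro z x y
    change (∑ᶠ q : A ⧸ B, T q.out (z * x) (z * y)) = z • ∑ᶠ q : A ⧸ B, T q.out x y
    have h1 : z • (∑ᶠ q : A ⧸ B, T q.out x y) = ∑ᶠ q : A ⧸ B, z • T q.out x y :=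
      (DistribSMul.toAddMonoidHom M z).map_finsum (hfin x y)
    rw [h1]
    rw [← finsum_comp_equiv (MulAction.toPerm (z⁻¹ : A) : Equiv.Perm (A ⧸ B))
      (f := fun q : A ⧸ B => z • T q.out x y)]
    refine finsum_congr fun q => ?_
    have h2 : T ((MulAction.toPerm (z⁻¹ : A) : Equiv.Perm (A ⧸ B)) q).out x y =
        T (z⁻¹ * q.out) x y := by
      refine hT _ _ _ _ ?_
      rw [QuotientGroup.out_eq']
      change z⁻¹ • q = _
      conv_lhs => rw [← QuotientGroup.out_eq' q]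
      rfl
    rw [h2]
    simp only [T]
    rw [smul_sub, ← mul_smul, ← mul_smul]
    simp [mul_assoc]
  refine ⟨fun x => φ 1 x, ?_, ?_, ?_⟩
  · intro x y
    change φ 1 (x * y) = φ 1 x + x • φ 1 y
    rw [← hsmul, ← hadd 1 x (x * y), mul_one]
  · intro b hb
    change (∑ᶠ q : A ⧸ B, T q.out 1 b) = 0
    rw [finsum_eq_single _ ((1 : A) : A ⧸ B)]
    · have h1 : T (((1 : A) : A ⧸ B)).out 1 b = T 1 1 b := hT _ _ _ _ (QuotientGroup.out_eq' _)
      rw [h1]
      simp only [T]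
      have h2 := hC2 ⟨b, hb⟩ 1
      rw [mul_one, hC3, smul_zero] at h2
      change C b = 0 at h2
      simp [h2, hC3]
    · intro q hq
      refine hT0 _ _ _ ?_
      have h3 : q.out ∉ B := by
        intro h
        apply hq
        rw [← QuotientGroup.out_eq' q]
        exact QuotientGroup.eq.2 (by simpa using B.inv_mem h)
      rw [mul_one]
      exact (H4 b hb _ h3).symm
  · change (∑ᶠ q : A ⧸ B, T q.out 1 x₀) = _
    have hne : ((1 : A) : A ⧸ B) ≠ ((x₀ : A) : A ⧸ B) := by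
      intro h
      have := QuotientGroup.eq.1 h
      exact hx (by simpa using this)
    rw [finsum_eq_sum_of_support_subset (s := {((1 : A) : A ⧸ B), ((x₀ : A) : A ⧸ B)})]
    · rw [Finset.sum_pair hne]
      have h1 : T (((1 : A) : A ⧸ B)).out 1 x₀ = T 1 1 x₀ := hT _ _ _ _ (QuotientGroup.out_eq' _)
      have h2 : T (((x₀ : A) : A ⧸ B)).out 1 x₀ = T x₀ 1 x₀ :=
        hT _ _ _ _ (QuotientGroup.out_eq' _)
      rw [h1, h2]
      simp only [T]
      simp [hC3, sub_eq_add_neg]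
    · intro q hq
      by_contra hq'
      simp only [Finset.coe_insert, Finset.coe_singleton, Set.mem_insert_iff,
        Set.mem_singleton_iff, not_or] at hq'
      apply hq
      refine hT0 _ _ _ ?_
      rw [mul_one]
      refine (hx2 _ ?_ ?_).symm
      · intro h
        apply hq'.1
        rw [← QuotientGroup.out_eq' q]
        exact QuotientGroup.eq.2 (by simpa using B.inv_mem h)
      · intro h
        apply hq'.2
        rw [← QuotientGroup.out_eq' q]
        exact (QuotientGroup.eq.2 h).symm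

/-- the stabilizer of a label -/
def stabE {A : Type u} [Group A] {B : Subgroup A} {Λ : Type u} {lam : A → Λ}
    (H1 : ∀ b ∈ B, ∀ g g' : A, lam g = lam g' → lam (b * g) = lam (b * g')) (x : A) :
    Subgroup A where
  carrier := {b | b ∈ B ∧ lam (b * x) = lam x}
  one_mem' := ⟨B.one_mem, by rw [one_mul]⟩
  mul_mem' := by
    rintro a b ⟨ha, ha'⟩ ⟨hb, hb'⟩
    refine ⟨B.mul_mem ha hb, ?_⟩
    rw [mul_assoc, H1 a ha _ _ hb', ha']
  inv_mem' := by
    rintro a ⟨ha, ha'⟩
    refine ⟨B.inv_mem ha, ?_⟩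
    have := H1 a⁻¹ (B.inv_mem ha) _ _ ha'
    rw [inv_mul_cancel_left] at this
    exact this.symm

open Classical in
/-- the function of the labels -/
noncomputable def CC {A : Type u} [Group A] (B : Subgroup A) {Λ : Type u} (lam : A → Λ) (x : A)
    {M : Type u} [AddCommGroup M] [DistribMulAction A M] (v : M) (g : A) : M :=
  if h : ∃ b : B, lam g = lam (b * x) then (h.choose : A) • v else 0

theorem CC_eq {A : Type u} [Group A] {B : Subgroup A} {Λ : Type u} {lam : A → Λ}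
    (H1 : ∀ b ∈ B, ∀ g g' : A, lam g = lam g' → lam (b * g) = lam (b * g')) {x : A}
    {M : Type u} [AddCommGroup M] [DistribMulAction A M] {v : M}
    (hv : ∀ e ∈ stabE H1 x, e • v = v) {g : A} {b : B} (h : lam g = lam (b * x)) :
    CC B lam x v g = (b : A) • v := by
  have hex : ∃ b : B, lam g = lam (b * x) := ⟨b, h⟩
  unfold CC
  rw [dif_pos hex]
  set c := hex.choose with hc
  have h1 : lam g = lam (c * x) := hex.choose_spec
  have h2 : lam (b * x) = lam (c * x) := by rw [← h, h1]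
  have h3 : ((b⁻¹ * c : B) : A) ∈ stabE H1 x := by
    refine ⟨(b⁻¹ * c : B).2, ?_⟩
    have h4 := H1 ((b⁻¹ : B) : A) (b⁻¹ : B).2 _ _ h2
    simp only [Subgroup.coe_inv, inv_mul_cancel_left] at h4
    simp only [Subgroup.coe_mul, Subgroup.coe_inv]
    rw [mul_assoc]
    exact h4.symm
  have h5 := hv _ h3
  simp only [Subgroup.coe_mul, Subgroup.coe_inv] at h5
  rw [mul_smul] at h5
  have h6 := congrArg (fun m => (b : A) • m) h5
  simp only [smul_inv_smul] at h6
  exact h6

theorem CC_zero {A : Type u} [Group A] {B : Subgroup A} {Λ : Type u} {lam : A → Λ} {x : A}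
    {M : Type u} [AddCommGroup M] [DistribMulAction A M] {v : M} {g : A}
    (h : ¬ ∃ b : B, lam g = lam (b * x)) : CC B lam x v g = 0 := by
  unfold CC
  rw [dif_neg h]

theorem dxb : DxbStmt.{u} := by
  classical
  intro A _ B Λ lam hlam x hx hx2
  have H1 := hlam.h1
  have hsmul : ∀ (b : B) (g : A), (∃ c : B, lam (b * g) = lam (c * x)) →
      ∃ c : B, lam g = lam (c * x) := by
    rintro b g ⟨c, hc⟩
    refine ⟨b⁻¹ * c, ?_⟩
    have h4 := H1 ((b⁻¹ : B) : A) (b⁻¹ : B).2 _ _ hc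
    simp only [Subgroup.coe_inv, inv_mul_cancel_left] at h4
    simp only [Subgroup.coe_mul, Subgroup.coe_inv]
    rw [mul_assoc]
    exact h4
  have key : ∀ (M : Type u) [AddCommGroup M] [DistribMulAction A M] (v : M),
      (∀ e ∈ stabE H1 x, e • v = v) →
      ∃ δ : A → M, IsDer δ ∧ (∀ b ∈ B, δ b = 0) ∧ δ x = v - x • CC B lam x v x⁻¹ := by
    intro M _ _ v hv
    have c1 : ∀ g g', lam g = lam g' → CC B lam x v g = CC B lam x v g' := by
      intro g g' h
      by_cases hg : ∃ b : B, lam g = lam (b * x)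
      · obtain ⟨b, hb⟩ := hg
        rw [CC_eq H1 hv hb, CC_eq H1 hv (h ▸ hb)]
      · rw [CC_zero hg, CC_zero (h ▸ hg)]
    have c2 : ∀ (b : B) (g : A), CC B lam x v (b * g) = (b : A) • CC B lam x v g := by
      intro b g
      by_cases hg : ∃ c : B, lam g = lam (c * x)
      · obtain ⟨c, hc⟩ := hg
        have hbc : lam (b * g) = lam (((b * c : B) : A) * x) := by
          simp only [Subgroup.coe_mul]
          rw [mul_assoc]
          exact H1 b b.2 _ _ hc
        rw [CC_eq H1 hv hc, CC_eq H1 hv hbc]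
        simp [mul_smul]
      · rw [CC_zero hg, CC_zero (fun h => hg (hsmul b g h)), smul_zero]
    have c3 : CC B lam x v 1 = 0 := by
      apply CC_zero
      rintro ⟨b, hb⟩
      refine hlam.h6 1 B.one_mem (b * x) ?_ hb
      intro h
      exact hx ((Subgroup.mul_mem_cancel_left _ b.2).1 h)
    obtain ⟨δ, h1, h2, h3⟩ := der_of_C hlam.h3 hlam.h4 (CC B lam x v) c1 c2 c3 x hx hx2
    refine ⟨δ, h1, h2, ?_⟩
    rw [h3, CC_eq H1 hv (g := x) (b := 1) (by simp)]
    simp
  by_cases ho : ∃ b : B, lam x⁻¹ = lam (b * x)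
  · obtain ⟨b, hb⟩ := ho
    refine ⟨stabE H1 x, some (x * b), hlam.h2 x, ?_, ?_⟩
    · rintro y hy hE
      have hy' : x * b = y := Option.some.inj hy
      rw [← hy'] at hE
      exact hx ((Subgroup.mul_mem_cancel_right _ b.2).1 hE.1)
    · intro M _ _ _ _ v hv
      obtain ⟨δ, h1, h2, h3⟩ := key M v hv
      refine ⟨δ, h1, h2, ?_⟩
      rw [h3, CC_eq H1 hv hb, ← mul_smul]
      rfl
  · refine ⟨stabE H1 x, none, hlam.h2 x, ?_, ?_⟩
    · intro y hy
      cases hy
    · intro M _ _ _ _ v hv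
      obtain ⟨δ, h1, h2, h3⟩ := key M v hv
      refine ⟨δ, h1, h2, ?_⟩
      rw [h3, CC_zero ho, smul_zero, sub_zero]
      rfl

end Pool.Agent.Helper55.BT
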